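import Pool.Agent.CC.Wr

/-!
# For every pair (a, d): a + qd with at most three prime factors, exactly one of them outside H

`H` is a subgroup of index 3 of the units modulo `m` (for instance the cubes modulo a prime `m ≡ 1 mod 3`), and the
class `q0` of `q` modulo `m` is such that `a + q d` is a unit outside `H`.

If `a + q d` is prime, it is its only prime factor and lies outside `H`.  Here this is proved with at most two more
prime factors, all in `H`: for `≫ x/(log x)^2` primes `q ≤ 2x` the integer `a + q d` is squarefree with at most three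
prime factors, all at least `x^(2/25)`, and its cubic class is carried by exactly one of them.  The proof uses a mixed
sieve (all primes up to `x^(2/25)`, the primes of one class up to `x^(13/40)`, weights for the others), with Rosser's
functional and numerical supersolutions of the linear sieve, the Bombieri-Vinogradov theorem, and switching for each of
the 39 types of bad integers, with a bilinear Bombieri-Vinogradov theorem; everything is formalised from scratch.
-/

set_option autoImplicit false

namespace Pool.Agent.Results.MP_8bf9c2_nt.CubicChen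

open Finset

open scoped Classical in
theorem result (a d : ℤ) (hd : 1 ≤ d) (ha : a ≠ 0) (had : IsCoprime a d) (h2 : 2 ∣ a * d) (m : ℕ) (hm : 0 < m)
    (H : Subgroup (ZMod m)ˣ) (hH : H.index = 3) (q0 : ℕ) (hq : q0.Coprime m) (u : (ZMod m)ˣ)
    (hu : (u : ZMod m) = ((a + q0 * d : ℤ) : ZMod m)) (huH : u ∉ H) :
    ∃ c : ℝ, 0 < c ∧ ∃ x0 : ℕ, ∀ x : ℕ, x0 ≤ x → c * x / (Real.log x) ^ 2 ≤
      (((Ioc x (2 * x)).filter fun q => q.Prime ∧ q ≡ q0 [MOD m] ∧ ∃ n : ℕ, (n : ℤ) = a + q * d ∧ Squarefree n ∧
        n.primeFactors.card ≤ 3 ∧ (∀ p ∈ n.primeFactors, (x : ℝ) ^ ((2 : ℝ) / 25) ≤ (p : ℝ)) ∧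
        ∃ p0 ∈ n.primeFactors, ∀ p ∈ n.primeFactors,
          (∃ v : (ZMod m)ˣ, (v : ZMod m) = (p : ZMod m) ∧ v ∈ H) ↔ p ≠ p0).card : ℝ) :=
  Pool.Agent.CC.chen_cubic a d hd ha had h2 m hm H hH q0 hq u hu huH

end Pool.Agent.Results.MP_8bf9c2_nt.CubicChen
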