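import Pool.Agent.AmW.Main

/-!
# MP_8bf9c2_nt: a third of every invariant weight on maps `q ↦ a + q d` lies on maps with the property of Q1

Q1 asks whether for every pair `(a, d)`, `d ≥ 1`, `gcd(a, d) = 1`, `2 ∣ a d`, the map `f(q) = a + q d` takes infinitely
many primes to primes.

`result`: let `S` be ANY set of such pairs.  For every `ε > 0` there are a finite subset `F` of `S` and `δ > 0` such that for
every weight `w ≥ 0` with finite support in `S` which is invariant up to `δ` under right composition with the elements of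
`F`, `∑ max (w(f) - w(f ∘ g)) 0 ≤ δ ∑ w` for `g ∈ F`, the maps which take infinitely many primes to primes carry at least
the share `1/3 - ε` of the weight.  There is no averaging over `a`; `S` need not be closed under composition (but if it is
not asymptotically closed there are no such weights for small `δ`).

Examples.  `w` = the indicator function of a finite `Φ ⊂ S` with `#{f ∈ Φ : f ∘ g ∉ Φ} ≤ δ #Φ`:
* `S = {f^m : m ≥ 1}`, `Φ` = long intervals: for EVERY `f` at least a third of the iterates `f^m`, in every long interval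
  of `m` (`f = (2, 1)`: a third of the even numbers are differences of infinitely many pairs of primes);
* for a rational number `c = u / v ≠ 0` the maps `f(q) = d (q + c) - c`, that is, the pairs `(c (d - 1), d)`, with
  `d ≡ 1 mod v` (`mod 2 v` if `v` is even) and `gcd(d, u) = 1`; `Φ` = a Foelner set of the multiplicative semigroup of
  these `d`: for at least a third of them `d (q + c) - c` is prime for infinitely many primes `q`;
* `S` = all pairs of Q1 with `d` in a multiplicative semigroup `D`; for a fixed pair `(a, d)` with `d ∈ D` or `d = 1` the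
  pairs `(a + d b, d t)` of Q1, `b` in a long interval `J`, `t` in a Foelner set of `D`, each `t` with the same weight.

Proof.  Otherwise four arbitrarily large groups of maps `L` in `S` are built greedily (`AmW/Greedy.lean`) such that
`L' ∘ L⁻¹` is a bad element of `S` for `L`, `L'` in different groups: for given `t` and most `y` (with respect to `w`) one
has `y = s ∘ t` with `s` in `S`, and `s` is distributed like `w`.  The theorem on four groups of linear forms (`PolD.dhlg4`;
Maynard-Tao sieve, dispersion method, upper bound sieve for pairs) forbids this if the forms are admissible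
(`AmS/NoFour.lean`): inside each group the maps are constant modulo all small primes; `2` never is an obstruction, four
classes are harmless modulo `p ≥ 5`, and for `p = 3` either a map constant modulo `3` exists (then all groups are taken
constant modulo 3), or the image of `S` in the affine group of `F_3` is a subgroup `M`, the fibres over `M` have equal
weight, and whenever the shares of the good maps in the fibres have the sum `< #M / 3`, one of the patterns `(1,1,1,1)`,
`(1,1,u,u)`, `(1,t,r,tr)`, `(1,t,r²,tr²)` can be built (`AmS/Comb.lean`, `AmW/Dens.lean`).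
-/

set_option autoImplicit false

namespace Pool.Agent.Results.MP_8bf9c2_nt.InvariantWeights

/-- the composition `f ∘ g` of the maps `f(q) = f.1 + q f.2`, `g(q) = g.1 + q g.2` -/
def comp (f g : ℤ × ℕ) : ℤ × ℕ := (f.1 + f.2 * g.1, f.2 * g.2)

/-- `a + q d` is prime for infinitely many primes `q`, `f = (a, d)` -/
def Good (f : ℤ × ℕ) : Prop := {q : ℕ | q.Prime ∧ ∃ p : ℕ, p.Prime ∧ (p : ℤ) = f.1 + q * f.2}.Infinite

open Classical in
theorem result (S : Set (ℤ × ℕ)) (hS : ∀ f ∈ S, 0 < f.2 ∧ Int.gcd f.1 f.2 = 1 ∧ 2 ∣ f.1 * f.2)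
    (ε : ℝ) (hε : 0 < ε) :
    ∃ (F : Finset (ℤ × ℕ)) (δ : ℝ), (∀ g ∈ F, g ∈ S) ∧ 0 < δ ∧
      ∀ (Φ : Finset (ℤ × ℕ)) (w : ℤ × ℕ → ℝ), (∀ f ∈ Φ, f ∈ S) → (∀ f, 0 ≤ w f) → (∀ f, f ∉ Φ → w f = 0) →
        (∀ g ∈ F, ∑ f ∈ Φ, max (w f - w (comp f g)) 0 ≤ δ * ∑ f ∈ Φ, w f) →
        (1 / 3 - ε) * ∑ f ∈ Φ, w f ≤ ∑ f ∈ Φ.filter (fun f => Good f), w f := by
  obtain ⟨F, δ, hF, hδ, H⟩ := Pool.Agent.AmW.main S hS ε hε
  refine ⟨F, δ, hF, hδ, fun Φ w hΦ hw0 hout hinv => ?_⟩
  have hn : 0 ≤ ∑ f ∈ Φ, w f := Finset.sum_nonneg fun f _ => hw0 f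
  rcases hn.lt_or_eq with hpos | hzero
  · have h1 := H Φ w ⟨hΦ, hw0, hout, hpos, hinv⟩
    rw [Pool.Agent.AmW.ms_eq Φ w Pool.Agent.AmS.GdP] at h1
    exact h1
  · rw [← hzero, mul_zero]
    exact Finset.sum_nonneg fun f _ => hw0 f

end Pool.Agent.Results.MP_8bf9c2_nt.InvariantWeights
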