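import Pool.Agent.StrG.Xout
import Pool.Agent.StrG.Tp

/-!
# MP_8bf9c2_nt: in every semigroup of maps `q ↦ a + q d` almost all maps near the identity take infinitely many primes to primes

Q1 asks whether for every pair `(a, d)`, `d ≥ 1`, `gcd(a, d) = 1`, `2 ∣ a d`, the map `f(q) = a + q d` takes infinitely many
primes to primes.

`result`: let `S` be ANY set of such pairs which is closed under composition of the maps.  There are a homomorphism `π` from
`S` to the unitary `n × n` matrices and `ρ, c > 0` with the following property.  For every `ε > 0` there are a finite subset `F`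
of `S` and `δ > 0` such that for every finite nonempty `Φ ⊂ S` which is invariant up to `δ` under right composition with the
elements of `F`, at least `c #Φ` elements `f` of `Φ` satisfy `|π(f) - 1| < ρ` (all entries), and at least the proportion `1 - ε`
of these takes infinitely many primes to primes.

Proof (formalised from scratch).  Input: the theorem on four groups of linear forms (`PolD.dhlg4`; Maynard-Tao sieve, dispersion
method, upper bound sieve for pairs); here only: for some `R`, among `R` admissible linear forms two are simultaneously prime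
infinitely often.  By pigeonhole modulo `R!` it follows that for some `R'` there are no affine maps `x_1, .., x_R'` for which all
`x_j x_i⁻¹` (`i < j`) are pairs with `gcd = 1` and only finitely many `q` (`StrG/Ntf.lean`).  THEOREM G (`StrG/Clique.lean`): if a
subset `B` of a group `G` contains no `R'` elements with all quotients `x_j x_i⁻¹ ∈ B`, then `B` has measure zero for every right
invariant mean on a Bohr set `{g : |π(g) - 1| < ρ}`, `π : G → U(n)`.  Proof of G: otherwise such elements are built one after the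
other: in the Hilbert space of an invariant mean the indicator function of `B` is the sum of an almost periodic part (closed span of
the vectors with finite dimensional orbit span) and a part orthogonal to it, which is weakly mixing for all invariant means (a
positive operator of finite trace which commutes with the group has finite dimensional invariant eigenspaces); almost periodic
functions return to themselves on Bohr sets, and the positivity survives by Jensen's inequality.
-/

set_option autoImplicit false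

namespace Pool.Agent.Results.MP_8bf9c2_nt.NearIdentity

/-- the composition `f ∘ g` of the maps `f(q) = f.1 + q f.2`, `g(q) = g.1 + q g.2` -/
def comp (f g : ℤ × ℕ) : ℤ × ℕ := (f.1 + f.2 * g.1, f.2 * g.2)

/-- `a + q d` is prime for infinitely many primes `q`, `f = (a, d)` -/
def Good (f : ℤ × ℕ) : Prop := {q : ℕ | q.Prime ∧ ∃ p : ℕ, p.Prime ∧ (p : ℤ) = f.1 + q * f.2}.Infinite

open Classical in
theorem result (S : Set (ℤ × ℕ)) (hS : ∀ f ∈ S, 0 < f.2 ∧ Int.gcd f.1 f.2 = 1 ∧ 2 ∣ f.1 * f.2)
    (hcomp : ∀ f ∈ S, ∀ g ∈ S, comp f g ∈ S) :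
    ∃ (n : ℕ) (π : ℤ × ℕ → Matrix (Fin n) (Fin n) ℂ) (ρ c : ℝ), 0 < ρ ∧ 0 < c ∧
      (∀ f ∈ S, π f ∈ Matrix.unitaryGroup (Fin n) ℂ) ∧ (∀ f ∈ S, ∀ g ∈ S, π (comp f g) = π f * π g) ∧
      ∀ ε : ℝ, 0 < ε → ∃ (F : Finset (ℤ × ℕ)) (δ : ℝ), (∀ g ∈ F, g ∈ S) ∧ 0 < δ ∧
        ∀ Φ : Finset (ℤ × ℕ), Φ.Nonempty → (∀ f ∈ Φ, f ∈ S) →
          (∀ g ∈ F, ((Φ.filter fun f => comp f g ∉ Φ).card : ℝ) ≤ δ * Φ.card) →
          c * Φ.card ≤
            ((Φ.filter fun f => ∀ i j, ‖π f i j - (1 : Matrix (Fin n) (Fin n) ℂ) i j‖ < ρ).card : ℝ) ∧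
          (1 - ε) * ((Φ.filter fun f => ∀ i j, ‖π f i j - (1 : Matrix (Fin n) (Fin n) ℂ) i j‖ < ρ).card : ℝ) ≤
            ((Φ.filter fun f => (∀ i j, ‖π f i j - (1 : Matrix (Fin n) (Fin n) ℂ) i j‖ < ρ) ∧ Good f).card : ℝ) := by
  obtain ⟨R, hT⟩ := Pool.Agent.StrG.exists_tp
  obtain ⟨n, π, ρ, c, hρ, hc, h1, h2, h3⟩ := Pool.Agent.StrG.thmX R hT S (fun s hs => ⟨(hS s hs).1, (hS s hs).2.1⟩) hcomp
  refine ⟨n, π, ρ, c, hρ, hc, h1, h2, fun ε hε => ?_⟩
  obtain ⟨F, δ, hF, hδ, h4⟩ := h3 ε hε
  refine ⟨F, δ, hF, hδ, fun Φ hΦ hΦS hinv => ?_⟩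
  have hcard : ∀ (P : ℤ × ℕ → Prop) (_ : DecidablePred P),
      ({s : ℤ × ℕ | s ∈ Φ ∧ P s}.ncard : ℝ) = ((Φ.filter P).card : ℝ) := by
    intro P _
    have h5 : {s : ℤ × ℕ | s ∈ Φ ∧ P s} = ↑(Φ.filter P) := by
      ext s
      rw [Finset.coe_filter]
    rw [h5, Set.ncard_coe_finset]
  obtain ⟨h5, h6⟩ := h4 Φ hΦ hΦS fun g hg => (hcard (fun f => comp f g ∉ Φ) _).trans_le (hinv g hg)
  rw [hcard _ (fun _ => Classical.propDecidable _)] at h5 h6
  rw [hcard _ (fun _ => Classical.propDecidable _)] at h6
  refine ⟨?_, ?_⟩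
  · convert h5
  · convert h6

end Pool.Agent.Results.MP_8bf9c2_nt.NearIdentity
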