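import Pool.Agent.UA.Main
import Pool.Agent.PolD.Out

/-!
# MP_8bf9c2_nt: for `d = D t`, `t` in a fixed finite set, almost all `a` in every residue class mod `D`

`Adm a d`: `gcd(a, d) = 1` and `2 ∣ a d` (the hypotheses of the question).
`Good a d`: `Adm a d` and `a + q d` is prime for infinitely many primes `q`.

`result`: there are completely multiplicative functions `χ_1, .., χ_m` from the positive integers to the unit circle and
`ρ, c > 0` such that for every `ε > 0` there are `M₀, n₀` such that for every multiple `M` of `M₀` and every `n ≥ n₀` there is `H`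
such that for EVERY `D ≥ 1`: the set `U_D` of the divisors `u` of `M ^ n` with `|χ_i(D M u) - 1| < ρ` for all `i` has at least
`c τ(M ^ n)` elements, and for EVERY `a` coprime to `D` and every interval `(x, x + X]` with `X ≥ H` the mean over `u ∈ U_D` of the share
of the good pairs among the admissible pairs `(a + k D, D M u)`, `x < k ≤ x + X`, is at least `1 - ε`.

Proof (formalised from scratch).  Input: the theorem on four groups of linear forms (`Pool/Agent/PolD/Out.lean`, `dhlg4`;
Maynard-Tao sieve, dispersion method, upper bound sieve for pairs): among `4 k` admissible linear forms in four groups two are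
simultaneously prime infinitely often.  So in the group of the affine maps `x ↦ a + d x` of `ℚ` the set `B` of the bad maps (with
`(4 k)! ∣ d`) has no `x_1, .., x_(4 k)` with all `x_j x_i⁻¹ ∈ B`, `i < j` (`UA/Clq.lean`).  New structure theorem (`StrG/Clique.lean`,
`thmG`): a subset of ANY group without such a clique of a fixed length has measure zero for every right invariant mean on a Bohr
set (a neighbourhood of the identity given by a finite dimensional unitary representation).  The finite dimensional unitary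
representations of the affine group are trivial on the translations (`UA/Tr.lean`), so a Bohr set contains one given by characters
of the slope (`UA/Chr.lean`), and Bohr sets have positive measure (`StrG/BohP.lean`).  By compactness (`StrG/Ult.lean`) the same holds
approximately for the average over every sufficiently right invariant finite set, and the maps `x ↦ a + k D + D M u x`,
`gcd(a + k D, D M) = 1`, `x < k ≤ x + X`, `u ∣ M ^ n`, form such a set, uniformly in `D`, `a` and `x` (`UA/Core.lean`).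
-/

namespace Pool.Agent.Results.MP_8bf9c2_nt.UniformAlmostAll

/-- `(a, d)` is admissible: `gcd(a, d) = 1` and `2 ∣ a d` -/
def Adm (a d : ℤ) : Prop := Int.gcd a d = 1 ∧ 2 ∣ a * d

/-- `(a, d)` is admissible and `a + q d` is prime for infinitely many primes `q` -/
def Good (a d : ℤ) : Prop :=
  Int.gcd a d = 1 ∧ 2 ∣ a * d ∧ {q : ℕ | q.Prime ∧ ∃ p : ℕ, p.Prime ∧ (p : ℤ) = a + q * d}.Infinite

/-- the share of the good pairs among the admissible pairs `(a + k D, D t)`, `x < k ≤ x + X` -/
noncomputable def share (a : ℤ) (D t : ℕ) (x : ℤ) (X : ℕ) : ℝ :=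
  ({k : ℤ | x < k ∧ k ≤ x + X ∧ Good (a + k * D) (D * t : ℕ)}.ncard : ℝ) /
    ({k : ℤ | x < k ∧ k ≤ x + X ∧ Adm (a + k * D) (D * t : ℕ)}.ncard : ℝ)

/-- completely multiplicative on the positive integers, with values on the unit circle -/
def CM (χ : ℕ → ℂ) : Prop := (∀ a b : ℕ, 0 < a → 0 < b → χ (a * b) = χ a * χ b) ∧ ∀ a : ℕ, ‖χ a‖ = 1

/-- the divisors `u` of `M ^ n` with all `χ_i (D M u)` within `ρ` of `1` -/
noncomputable def UD {m : ℕ} (χ : Fin m → ℕ → ℂ) (ρ : ℝ) (M n D : ℕ) : Finset ℕ :=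
  (M ^ n).divisors.filter fun u => ∀ i, ‖χ i (D * (M * u)) - 1‖ < ρ

theorem result :
    ∃ (m : ℕ) (χ : Fin m → ℕ → ℂ) (ρ c : ℝ), 0 < ρ ∧ 0 < c ∧ (∀ i, CM (χ i)) ∧
      ∀ ε : ℝ, 0 < ε → ∃ M₀ n₀ : ℕ, 0 < M₀ ∧ ∀ M n : ℕ, 0 < M → M₀ ∣ M → n₀ ≤ n → ∃ H : ℕ, ∀ D : ℕ, 0 < D →
        c * (M ^ n).divisors.card ≤ (UD χ ρ M n D).card ∧
        ∀ a : ℤ, Int.gcd a D = 1 → ∀ (x : ℤ) (X : ℕ), H ≤ X →
          (1 - ε) * (UD χ ρ M n D).card ≤ ∑ u ∈ UD χ ρ M n D, share a D (M * u) x X := by
  obtain ⟨k, hk, hD⟩ := Pool.Agent.PolD.dhlg4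
  obtain ⟨m, χ, ρ, c, hρ, hc, h1, h2, h3⟩ := Pool.Agent.UA.main hk hD
  refine ⟨m, χ, ρ, c, hρ, hc, fun i => ⟨h1 i, h2 i⟩, fun ε hε => ?_⟩
  obtain ⟨M₀, n₀, hM₀, h4⟩ := h3 ε hε
  refine ⟨M₀, n₀, hM₀, fun M n hM hMd hn => ?_⟩
  obtain ⟨H, hH⟩ := h4 M n hM hMd hn
  refine ⟨H, fun D hD0 => ?_⟩
  obtain ⟨U, hU, h5, h6⟩ := hH D hD0
  have hUU : UD χ ρ M n D = U := by
    ext u
    unfold UD
    rw [Finset.mem_filter, Nat.mem_divisors, hU]
    exact ⟨fun h => ⟨h.1.1, h.2⟩, fun h => ⟨⟨h.1, (pow_pos hM n).ne'⟩, h.2⟩⟩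
  rw [hUU]
  exact ⟨h5, h6⟩

end Pool.Agent.Results.MP_8bf9c2_nt.UniformAlmostAll
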